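import Pool.Agent.H83.Ss4

set_option autoImplicit false

namespace Pool.Agent.Results.MP_d37bef_lc.Equal

open Cardinal Pool.Agent.H83.SsDefs

theorem result : ssCC = ssC :=
  H83.Ss4.ssCC_eq

end Pool.Agent.Results.MP_d37bef_lc.Equal
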