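import Pool.Agent.H83.Ss4

set_option autoImplicit false

namespace Pool.Agent.Results.MP_d37bef_lc.Q2

open Cardinal Pool.Agent.H83.SsDefs

theorem result :
    max split (covM (ℕ → ℕ)) < dom → max split (covM (ℕ → ℕ)) < covN →
      max split (covM (ℕ → ℕ)) < ssCC := by
  rw [H83.Ss4.ssCC_eq]
  exact fun h1 h2 => lt_of_lt_of_le (lt_min h1 h2) H83.Ss3.min_le_ssC'

end Pool.Agent.Results.MP_d37bef_lc.Q2
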